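import Mathlib

namespace Pool.Agent.Results.MP_cab928_co.Localized

open Finset

/-- The real binomial coefficient `x (x-1) ... (x-k+1) / k!`. -/
noncomputable def rb (x : ℝ) (k : ℕ) : ℝ := (∏ j ∈ range k, (x - j)) / k.factorial

/-- The `t`-cliques of a `q`-uniform hypergraph. -/
def cl {n : ℕ} (q t : ℕ) (H : Finset (Finset (Fin n))) : Finset (Finset (Fin n)) :=
  (powersetCard t univ).filter fun T => powersetCard q T ⊆ H

/-- The degree `d(I)`. -/
def deg {n : ℕ} (H : Finset (Finset (Fin n))) (I : Finset (Fin n)) : ℕ :=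
  (H.filter fun e => I ⊆ e).card

/-- `x(T)`, the largest `x(I)` over the `i`-subsets `I` of `T`. -/
noncomputable def xT {n : ℕ} (i : ℕ) (x : Finset (Fin n) → ℝ) (T : Finset (Fin n)) : ℝ :=
  sSup (x '' {I | I ⊆ T ∧ I.card = i})

lemma rb_succ (x : ℝ) (k : ℕ) : rb x (k + 1) * (k + 1) = rb x k * (x - k) := by
  unfold rb
  rw [prod_range_succ, Nat.factorial_succ]
  have : (k.factorial : ℝ) ≠ 0 := by positivity
  push_cast
  field_simp

lemma rb_succ' (x : ℝ) (k : ℕ) : rb x (k + 1) * (k + 1) = x * rb (x - 1) k := by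
  unfold rb
  rw [prod_range_succ', Nat.factorial_succ]
  have : (k.factorial : ℝ) ≠ 0 := by positivity
  have h : ∏ j ∈ range k, (x - ((j + 1 : ℕ) : ℝ)) = ∏ j ∈ range k, (x - 1 - j) :=
    prod_congr rfl fun j _ => by push_cast; ring
  rw [h]
  push_cast
  field_simp
  ring

lemma rb_add (y : ℝ) (a b : ℕ) : rb y (a + b) * (a + b).choose a = rb y a * rb (y - a) b := by
  unfold rb
  rw [prod_range_add]
  have h : ∏ j ∈ range b, (y - ((a + j : ℕ) : ℝ)) = ∏ j ∈ range b, (y - a - j) :=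
    prod_congr rfl fun j _ => by push_cast; ring
  have h2 : ((a + b).factorial : ℝ) = (a + b).choose a * a.factorial * b.factorial := by
    rw [← Nat.add_choose_mul_factorial_mul_factorial a b, Nat.choose_symm_add]; push_cast; ring
  have h3 : (0 : ℝ) < (a + b).choose a := by exact_mod_cast Nat.choose_pos (by omega)
  rw [h, h2]
  have : (a.factorial : ℝ) ≠ 0 := by positivity
  have : (b.factorial : ℝ) ≠ 0 := by positivity
  field_simp

lemma rb_nat (N k : ℕ) : rb N k = N.choose k := by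
  induction k with
  | zero => simp [rb]
  | succ k ih =>
    have h := rb_succ N k
    have h2 := Nat.choose_succ_right_eq N k
    rcases le_or_gt k N with hk | hk
    · have h3 : ((N.choose (k + 1) : ℕ) : ℝ) * (k + 1) = N.choose k * (N - k) := by
        rw [← Nat.cast_sub hk]; exact_mod_cast h2
      rw [ih, ← h3] at h
      exact mul_right_cancel₀ (by positivity) h
    · rw [ih, Nat.choose_eq_zero_of_lt hk] at h
      rw [Nat.choose_eq_zero_of_lt (by omega)]
      simp only [Nat.cast_zero, zero_mul] at h ⊢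
      exact (mul_eq_zero.1 h).resolve_right (by positivity)

lemma sub_nonneg' {x : ℝ} {k j : ℕ} (h : (k : ℝ) - 1 ≤ x) (hj : j ∈ range k) : 0 ≤ x - j := by
  have : ((j + 1 : ℕ) : ℝ) ≤ k := by exact_mod_cast mem_range.1 hj
  push_cast at this
  linarith

lemma rb_mono {x y : ℝ} {k : ℕ} (h : (k : ℝ) - 1 ≤ x) (hxy : x ≤ y) : rb x k ≤ rb y k := by
  unfold rb
  gcongr ?_ / _
  exact prod_le_prod (fun j hj => sub_nonneg' h hj) fun j _ => by linarith

lemma rb_pos {x : ℝ} {k : ℕ} (h : (k : ℝ) ≤ x) : 0 < rb x k := by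
  unfold rb
  refine div_pos (prod_pos fun j hj => ?_) (by positivity)
  have := sub_nonneg' (x := x - 1) (by linarith) hj
  linarith

lemma rb_lt {x y : ℝ} {k : ℕ} (hk : 1 ≤ k) (h : (k : ℝ) - 1 ≤ x) (hxy : x < y) :
    rb x k < rb y k := by
  refine lt_of_le_of_lt (rb_mono h (show x ≤ (x + y) / 2 by linarith)) ?_
  unfold rb
  gcongr ?_ / _
  refine prod_lt_prod_of_nonempty (fun j hj => ?_) (fun j _ => by linarith) ⟨0, by simp; omega⟩
  have := sub_nonneg' h hj
  linarith

variable {n : ℕ}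

def link (H : Finset (Finset (Fin n))) (I : Finset (Fin n)) : Finset (Finset (Fin n)) :=
  (H.filter fun e => I ⊆ e).image (· \ I)

lemma sdiff_injOn (H : Finset (Finset (Fin n))) (I : Finset (Fin n)) :
    Set.InjOn (· \ I) (H.filter (fun e => I ⊆ e) : Set (Finset (Fin n))) := by
  intro a ha b hb h
  have ha := (mem_filter.1 ha).2
  have hb := (mem_filter.1 hb).2
  simp only at h
  rw [← sdiff_union_of_subset ha, h, sdiff_union_of_subset hb]

lemma card_link (H : Finset (Finset (Fin n))) (I : Finset (Fin n)) :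
    (link H I).card = deg H I := card_image_of_injOn (sdiff_injOn H I)

lemma link_unif {H : Finset (Finset (Fin n))} {q : ℕ} (hH : ∀ e ∈ H, e.card = q)
    (I : Finset (Fin n)) : ∀ e ∈ link H I, e.card = q - I.card := by
  intro e he
  obtain ⟨f, hf, rfl⟩ := mem_image.1 he
  rw [card_sdiff_of_subset (mem_filter.1 hf).2, hH f (mem_filter.1 hf).1]

lemma cl_card {H : Finset (Finset (Fin n))} {q t : ℕ} : ∀ T ∈ cl q t H, T.card = t :=
  fun _ hT => (mem_powersetCard.1 (mem_filter.1 hT).1).2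

lemma mem_link {H : Finset (Finset (Fin n))} {q t : ℕ} {I T S : Finset (Fin n)}
    (hI : I.card ≤ q) (hT : T ∈ cl q t H) (hIT : I ⊆ T)
    (hS : S ∈ powersetCard (q - I.card) (T \ I)) : S ∈ link H I := by
  obtain ⟨h1, h2⟩ := mem_powersetCard.1 hS
  have hd : Disjoint S I := disjoint_of_subset_left h1 sdiff_disjoint
  refine mem_image.2 ⟨S ∪ I, mem_filter.2 ⟨(mem_filter.1 hT).2 (mem_powersetCard.2
    ⟨union_subset (h1.trans sdiff_subset) hIT, ?_⟩), subset_union_right⟩, ?_⟩
  · rw [card_union_of_disjoint hd]; omega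
  · simp only [union_sdiff_cancel_right hd]

lemma deg_cl_le (H : Finset (Finset (Fin n))) (q t : ℕ) (I : Finset (Fin n)) (hI : I.card ≤ q) :
    deg (cl q t H) I ≤ (cl (q - I.card) (t - I.card) (link H I)).card := by
  refine card_le_card_of_injOn (· \ I) (fun T hT => ?_) (sdiff_injOn _ I)
  obtain ⟨hT, hIT⟩ := mem_filter.1 hT
  refine mem_filter.2 ⟨mem_powersetCard.2 ⟨subset_univ _, ?_⟩, fun S hS => mem_link hI hT hIT hS⟩
  simp only
  rw [card_sdiff_of_subset hIT, cl_card T hT]

lemma double (F : Finset (Finset (Fin n))) (k i : ℕ) (hF : ∀ e ∈ F, e.card = k)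
    (w : Finset (Fin n) → ℝ) :
    ∑ I ∈ powersetCard i univ, ∑ e ∈ F with I ⊆ e, w e = k.choose i * ∑ e ∈ F, w e := by
  simp only [sum_filter]
  rw [sum_comm, mul_sum]
  refine sum_congr rfl fun e he => ?_
  rw [← sum_filter, sum_const, nsmul_eq_mul, ← hF e he, ← card_powersetCard]
  congr 3
  ext I
  simp [mem_powersetCard, and_comm]

lemma double' (F : Finset (Finset (Fin n))) (k i : ℕ) (hF : ∀ e ∈ F, e.card = k) :
    ∑ I ∈ powersetCard i univ, (deg F I : ℝ) = k.choose i * F.card := by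
  simpa [deg] using double F k i hF fun _ => 1

lemma step (r : ℕ) (ih : ∀ (L : Finset (Finset (Fin n))) (y : ℝ), (∀ e ∈ L, e.card = r) →
      (r : ℝ) ≤ y → L.card < rb y r → (r + 1) * ((cl r (r + 1) L).card : ℝ) ≤ (y - r) * L.card)
    (G : Finset (Finset (Fin n))) (x : ℝ) (hG : ∀ e ∈ G, e.card = r + 1) (hx : (r : ℝ) + 1 ≤ x)
    (hc : G.card ≤ rb x (r + 1)) :
    (r + 2) * ((cl (r + 1) (r + 2) G).card : ℝ) ≤ (x - (r + 1)) * G.card := by
  have key : ∀ I ∈ powersetCard 1 (univ : Finset (Fin n)),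
      (r + 1) * (deg (cl (r + 1) (r + 2) G) I : ℝ) ≤ (x - (r + 1)) * deg G I := by
    intro I hI
    have hI1 := (mem_powersetCard.1 hI).2
    rcases lt_or_ge (deg G I : ℝ) (rb (x - 1) r) with h | h
    · have h1 := ih (link G I) (x - 1) (by simpa [hI1] using link_unif hG I) (by linarith)
        (by rwa [card_link])
      have h2 := deg_cl_le G (r + 1) (r + 2) I (by omega)
      rw [hI1] at h2
      have h3 : (deg (cl (r + 1) (r + 2) G) I : ℝ) ≤ (cl r (r + 1) (link G I)).card := by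
        exact_mod_cast h2
      rw [card_link] at h1
      nlinarith
    · have h1 : deg (cl (r + 1) (r + 2) G) I ≤ (G.filter fun e => ¬ I ⊆ e).card := by
        refine card_le_card_of_injOn (· \ I) (fun T hT => ?_) (sdiff_injOn _ I)
        obtain ⟨hT, hIT⟩ := mem_filter.1 hT
        refine mem_filter.2 ⟨(mem_filter.1 hT).2 (mem_powersetCard.2 ⟨sdiff_subset, ?_⟩), ?_⟩
        · simp only
          rw [card_sdiff_of_subset hIT, cl_card T hT, hI1]; rfl
        · obtain ⟨v, rfl⟩ := card_eq_one.1 hI1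
          simp
      have h2 := card_filter_add_card_filter_not (s := G) (fun e => I ⊆ e)
      have h3 : (deg (cl (r + 1) (r + 2) G) I : ℝ) + deg G I ≤ G.card := by
        have : deg (cl (r + 1) (r + 2) G) I + deg G I ≤ G.card := by unfold deg at *; omega
        exact_mod_cast this
      have h4 := rb_succ' x r
      have h5 : (0 : ℝ) ≤ r := by positivity
      nlinarith
  have h1 := sum_le_sum key
  rw [← mul_sum, ← mul_sum, double' _ (r + 2) 1 cl_card, double' _ (r + 1) 1 hG] at h1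
  simp only [Nat.choose_one_right] at h1
  push_cast at h1
  have h5 : (0 : ℝ) < r + 1 := by positivity
  refine le_of_mul_le_mul_left ?_ h5
  nlinarith

lemma strict (r : ℕ) : ∀ (L : Finset (Finset (Fin n))) (y : ℝ), (∀ e ∈ L, e.card = r) →
    (r : ℝ) ≤ y → L.card < rb y r → (r + 1) * ((cl r (r + 1) L).card : ℝ) ≤ (y - r) * L.card := by
  induction r with
  | zero =>
    intro L y _ _ h
    have h1 : L.card < 1 := by
      have : (L.card : ℝ) < 1 := by simpa [rb] using h
      exact_mod_cast this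
    obtain rfl : L = ∅ := card_eq_zero.1 (by omega)
    simp [cl]
  | succ r ih =>
    intro L y h1 h2 h3
    have := step r ih L y h1 (by exact_mod_cast h2) h3.le
    push_cast
    rw [show (r : ℝ) + 1 + 1 = r + 2 by ring]
    exact this

lemma lovasz (r j : ℕ) (G : Finset (Finset (Fin n))) (x : ℝ) (hG : ∀ e ∈ G, e.card = r + 1)
    (hc : G.card ≤ rb x (r + 1)) (hx : ((r + 1 + j : ℕ) : ℝ) ≤ x) :
    ((cl (r + 1) (r + 1 + j) G).card : ℝ) ≤ rb x (r + 1 + j) := by
  induction j with
  | zero =>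
    refine le_trans (Nat.cast_le.2 (card_le_card fun T hT => ?_)) hc
    exact (mem_filter.1 hT).2 (mem_powersetCard.2 ⟨Subset.rfl, cl_card T hT⟩)
  | succ j ih =>
    have ih := ih (by push_cast at hx ⊢; linarith)
    have e : r + 1 + j = r + j + 1 := by ring
    have h1 := step (r + j) (strict (r + j)) (cl (r + 1) (r + 1 + j) G) x
      (fun T hT => e ▸ cl_card T hT) (by push_cast at hx ⊢; linarith) (e ▸ ih)
    have h2 : cl (r + 1) (r + 1 + (j + 1)) G ⊆
        cl (r + j + 1) (r + j + 2) (cl (r + 1) (r + 1 + j) G) := by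
      intro T hT
      refine mem_filter.2 ⟨mem_powersetCard.2 ⟨subset_univ _, by rw [cl_card T hT]; ring⟩,
        fun S hS => ?_⟩
      obtain ⟨h3, h4⟩ := mem_powersetCard.1 hS
      exact mem_filter.2 ⟨mem_powersetCard.2 ⟨subset_univ _, by rw [h4, e]⟩,
        (powersetCard_mono h3).trans (mem_filter.1 hT).2⟩
    have h3 : ((cl (r + 1) (r + 1 + (j + 1)) G).card : ℝ) ≤ _ := Nat.cast_le.2 (card_le_card h2)
    have h4 := rb_succ x (r + 1 + j)
    rw [← add_assoc] at h3 ⊢
    push_cast at h1 h4 hx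
    have h5 : (0 : ℝ) < r + j + 2 := by positivity
    refine le_of_mul_le_mul_left ?_ h5
    have h6 : (0 : ℝ) ≤ x - (r + j + 1) := by linarith
    nlinarith [mul_le_mul_of_nonneg_left ih h6, mul_le_mul_of_nonneg_left h3 h5.le]

lemma main (n t q i : ℕ) (hiq : i < q) (hqt : q ≤ t)
    (H : Finset (Finset (Fin n))) (hH : ∀ e ∈ H, e.card = q) (x : Finset (Fin n) → ℝ)
    (hx : ∀ I : Finset (Fin n), I.card = i →
      (q : ℝ) - 1 ≤ x I ∧ (deg H I : ℝ) = rb (x I - i) (q - i)) :
    ∑ T ∈ cl q t H, 1 / rb (xT i x T - q) (t - q) ≤ H.card / t.choose q := by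
  obtain ⟨r, rfl⟩ : ∃ r, q = i + (r + 1) := ⟨q - i - 1, by omega⟩
  obtain ⟨j, rfl⟩ : ∃ j, t = i + (r + 1) + j := ⟨t - (i + (r + 1)), by omega⟩
  have e1 : i + (r + 1) - i = r + 1 := by omega
  have e2 : i + (r + 1) + j - (i + (r + 1)) = j := by omega
  have e3 : i + (r + 1) + j - i = r + 1 + j := by omega
  have c1 : (0 : ℝ) < (r + 1 + j).choose (r + 1) := by exact_mod_cast Nat.choose_pos (by omega)
  rw [e2]
  have key : ∀ I ∈ powersetCard i (univ : Finset (Fin n)),
      ∑ T ∈ cl (i + (r + 1)) (i + (r + 1) + j) H with I ⊆ T,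
        1 / rb (xT i x T - (i + (r + 1) : ℕ)) j ≤ deg H I / (r + 1 + j).choose (r + 1) := by
    intro I hI
    have hIc := (mem_powersetCard.1 hI).2
    obtain ⟨h1, h2⟩ := hx I hIc
    rw [e1] at h2
    rcases ((cl (i + (r + 1)) (i + (r + 1) + j) H).filter fun T => I ⊆ T).eq_empty_or_nonempty
      with h | ⟨T0, hT0⟩
    · rw [h, sum_empty]; positivity
    obtain ⟨hT0, hIT0⟩ := mem_filter.1 hT0
    have hd : (r + 1 + j).choose (r + 1) ≤ deg H I := by
      have := card_le_card fun S hS => mem_link (S := S) (by omega) hT0 hIT0 hS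
      rwa [card_link, card_powersetCard, card_sdiff_of_subset hIT0, cl_card T0 hT0, hIc, e1,
        e3] at this
    have hxt : ((r + 1 + j : ℕ) : ℝ) ≤ x I - i := by
      by_contra hlt
      have := rb_lt (k := r + 1) (by omega) (by push_cast at h1 ⊢; linarith) (not_le.1 hlt)
      rw [rb_nat, ← h2] at this
      exact absurd hd (not_le.2 (by exact_mod_cast this))
    have hj : (j : ℝ) ≤ x I - i - (r + 1 : ℕ) := by push_cast at hxt ⊢; linarith
    have hp := rb_pos hj
    have hN : (deg (cl (i + (r + 1)) (i + (r + 1) + j) H) I : ℝ) ≤ rb (x I - i) (r + 1 + j) := by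
      have h3 := deg_cl_le H (i + (r + 1)) (i + (r + 1) + j) I (by omega)
      rw [hIc, e1, e3] at h3
      refine le_trans (Nat.cast_le.2 h3) (lovasz r j _ _ ?_ (by rw [card_link, h2]) hxt)
      simpa [hIc] using link_unif hH I
    calc _ ≤ ∑ T ∈ cl (i + (r + 1)) (i + (r + 1) + j) H with I ⊆ T,
          1 / rb (x I - i - (r + 1 : ℕ)) j := by
          refine sum_le_sum fun T hT => one_div_le_one_div_of_le hp (rb_mono (by linarith) ?_)
          have : x I ≤ xT i x T :=
            le_csSup (Set.toFinite _).bddAbove ⟨I, ⟨(mem_filter.1 hT).2, hIc⟩, rfl⟩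
          push_cast
          linarith
      _ ≤ rb (x I - i) (r + 1 + j) * (1 / rb (x I - i - (r + 1 : ℕ)) j) := by
          rw [sum_const, nsmul_eq_mul]
          exact mul_le_mul_of_nonneg_right hN (by positivity)
      _ = _ := by
          rw [h2, eq_div_iff c1.ne', mul_right_comm, rb_add]
          field_simp
  have h1 := sum_le_sum key
  rw [double _ _ i cl_card, ← sum_div, double' _ _ i hH] at h1
  have h2 := Nat.choose_mul (n := i + (r + 1) + j) (k := i + (r + 1)) (s := i) (by omega)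
  rw [e1, e3] at h2
  have h3 : (((i + (r + 1) + j).choose (i + (r + 1)) : ℕ) : ℝ) * (i + (r + 1)).choose i =
      (i + (r + 1) + j).choose i * (r + 1 + j).choose (r + 1) := by exact_mod_cast h2
  have c2 : (0 : ℝ) < (i + (r + 1) + j).choose (i + (r + 1)) := by
    exact_mod_cast Nat.choose_pos (by omega)
  have c3 : (0 : ℝ) < (i + (r + 1)).choose i := by exact_mod_cast Nat.choose_pos (by omega)
  rw [le_div_iff₀ c1] at h1
  rw [le_div_iff₀ c2]
  refine le_of_mul_le_mul_right ?_ c3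
  rw [mul_assoc, h3]
  linarith

lemma exists_root (i r d : ℕ) :
    ∃ y : ℝ, ((i + (r + 1) : ℕ) : ℝ) - 1 ≤ y ∧ (d : ℝ) = rb (y - i) (r + 1) := by
  have hc : ∀ k, d ≤ (d + k + 1).choose (k + 1) := by
    intro k
    induction k with
    | zero => simp
    | succ k ih => rw [← add_assoc, Nat.choose_succ_succ' (d + k + 1)]; omega
  have hf : Continuous fun y : ℝ => rb y (r + 1) := by unfold rb; fun_prop
  have h0 : rb r (r + 1) ≤ d := by rw [rb_nat]; simp
  have h1 : (d : ℝ) ≤ rb (d + r + 1 : ℕ) (r + 1) := by rw [rb_nat]; exact_mod_cast hc r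
  obtain ⟨z, hz, e⟩ := intermediate_value_Icc (a := (r : ℝ)) (b := (d + r + 1 : ℕ))
    (by push_cast; linarith [(Nat.cast_nonneg d : (0 : ℝ) ≤ d)]) hf.continuousOn ⟨h0, h1⟩
  refine ⟨z + i, by push_cast; linarith [hz.1], ?_⟩
  rw [add_sub_cancel_right]
  exact e.symm

theorem result (n t q i : ℕ) (_hi : 1 ≤ i) (hiq : i < q) (hqt : q ≤ t)
    (H : Finset (Finset (Fin n))) (hH : ∀ e ∈ H, e.card = q) :
    (∃ x : Finset (Fin n) → ℝ, ∀ I : Finset (Fin n), I.card = i →
      (q : ℝ) - 1 ≤ x I ∧ (deg H I : ℝ) = rb (x I - i) (q - i)) ∧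
    ∀ x : Finset (Fin n) → ℝ, (∀ I : Finset (Fin n), I.card = i →
      (q : ℝ) - 1 ≤ x I ∧ (deg H I : ℝ) = rb (x I - i) (q - i)) →
      ∑ T ∈ cl q t H, 1 / rb (xT i x T - q) (t - q) ≤ H.card / t.choose q := by
  refine ⟨?_, main n t q i hiq hqt H hH⟩
  obtain ⟨r, rfl⟩ : ∃ r, q = i + (r + 1) := ⟨q - i - 1, by omega⟩
  choose x hx using fun I : Finset (Fin n) => exists_root i r (deg H I)
  exact ⟨x, fun I _ => by rw [Nat.add_sub_cancel_left]; exact hx I⟩

end Pool.Agent.Results.MP_cab928_co.Localized
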